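import Pool.Agent.Run7.h894.LK.Stm
import Pool.Agent.Helper717.LT.P_specP
import Pool.Agent.Helper717.LT.P_sys_psd
import Pool.Agent.Helper717.LT.P_blockC
import Pool.Agent.Helper717.LT.P_bco_pos

/-!
# LK/LTV
-/

set_option autoImplicit false

open MeasureTheory Set Filter Topology
open scoped Matrix

namespace Pool.Agent.Run7.H894.LK.LTVp

open LTd (Mat)

theorem LL_pos (k : ℕ) : 0 < Pool.Agent.N537.RS.LL k := by
  unfold Pool.Agent.N537.RS.LL
  have h1 : (0 : ℝ) < (k.factorial : ℝ) := by exact_mod_cast k.factorial_pos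
  have h2 := Pool.Agent.R117.RL.Ga_pos k
  positivity

theorem trace_int {n : ℕ} (K : Mat n) (P : ℝ → Mat n) (hP : ∀ i j, Integrable fun t => P t i j) :
    Integrable (fun t => (K * P t * Kᵀ).trace) ∧
    ∫ t, (K * P t * Kᵀ).trace = (K * (Matrix.of fun i j => ∫ t, P t i j) * Kᵀ).trace := by
  have e : ∀ M : Mat n, (K * M * Kᵀ).trace = ∑ i, ∑ b, ∑ a, (K i a * K i b) * M a b := by
    intro M
    unfold Matrix.trace
    refine Finset.sum_congr rfl fun i _ => ?_
    rw [Matrix.diag_apply, Matrix.mul_apply]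
    refine Finset.sum_congr rfl fun b _ => ?_
    rw [Matrix.mul_apply, Finset.sum_mul]
    refine Finset.sum_congr rfl fun a _ => ?_
    rw [Matrix.transpose_apply]
    ring
  have hi : ∀ i b a : Fin n, Integrable (fun t => (K i a * K i b) * P t a b) := fun i b a =>
    (hP a b).const_mul _
  have hi2 : ∀ i b : Fin n, Integrable (fun t => ∑ a, (K i a * K i b) * P t a b) := fun i b =>
    integrable_finset_sum _ fun a _ => hi i b a
  have hi3 : ∀ i : Fin n, Integrable (fun t => ∑ b, ∑ a, (K i a * K i b) * P t a b) := fun i =>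
    integrable_finset_sum _ fun b _ => hi2 i b
  simp only [e]
  refine ⟨integrable_finset_sum _ fun i _ => hi3 i, ?_⟩
  rw [integral_finset_sum _ fun i _ => hi3 i]
  refine Finset.sum_congr rfl fun i _ => ?_
  rw [integral_finset_sum _ fun b _ => hi2 i b]
  refine Finset.sum_congr rfl fun b _ => ?_
  rw [integral_finset_sum _ fun a _ => hi i b a]
  refine Finset.sum_congr rfl fun a _ => ?_
  rw [integral_const_mul]
  rfl

theorem sys_intQ {n : ℕ} {R S Q : ℝ → Mat n} (h : LTd.Sys R S Q) (i j : Fin n) :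
    Integrable fun t => Q t i j := by
  obtain ⟨M, hM⟩ := h.supp
  refine (h.cQ i j).integrable_of_hasCompactSupport ?_
  refine HasCompactSupport.intro (isCompact_Icc (a := -M) (b := M)) ?_
  intro x hx
  have : M < |x| := by
    by_contra hcon
    exact hx (abs_le.1 (not_lt.1 hcon))
  simp [(hM x this).2.2]

theorem t_LTV (hJ : S_JEN) (hY : S_YOU) (hC : S_CLT) : S_LTV := by
  intro k hk n R S Q h hT F N W hF hN hNi hW U e hU
  have hk' : (6 : ℝ) ≤ k := by exact_mod_cast hk
  obtain ⟨hU1, hU2, hU3⟩ := hU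
  set g : ℝ := ((k : ℝ) - 1) / 2 with hg
  have hg1 : (5 / 2 : ℝ) ≤ g := by rw [hg]; linarith
  have hgk : g + 1 / 2 = (k : ℝ) / 2 := by rw [hg]; ring
  set b : ℝ := LTd.bco (1 / 2) g 1 with hb
  have hb0 : 0 < b := LTd.bco_pos (by norm_num) (by linarith) one_pos
  have hLL := LL_pos k
  set c : ℝ := LTd.cc (g + 1 / 2) * b ^ (1 - (g + 1 / 2)) with hc
  have hccg : 0 < LTd.cc g := LTd.bco_cc_pos (by linarith)
  have hcc : c = LTd.cc g * Pool.Agent.N537.RS.LL k := hC k hk
  have hc0 : 0 < c := by rw [hcc]; positivity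
  -- the weights
  set l : Fin n → ℝ := fun i => ((g - 1) / g * max (-e i) 0) ^ (g - 1) with hl
  have hgg : 0 ≤ (g - 1) / g := div_nonneg (by linarith) (by linarith)
  have hl0 : ∀ i, 0 ≤ l i := fun i =>
    Real.rpow_nonneg (mul_nonneg hgg (le_max_right _ _)) _
  set K : Mat n := Matrix.diagonal (fun i => √(l i)) * Uᵀ with hK
  have hKt : Kᵀ = U * Matrix.diagonal (fun i => √(l i)) := by
    rw [hK, Matrix.transpose_mul, Matrix.transpose_transpose, Matrix.diagonal_transpose]
  have hKK : ∀ d : Fin n → ℝ, K * (U * Matrix.diagonal d * Uᵀ) * Kᵀ =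
      Matrix.diagonal (fun i => l i * d i) := by
    intro d
    rw [hKt, hK]
    calc Matrix.diagonal (fun i => √(l i)) * Uᵀ * (U * Matrix.diagonal d * Uᵀ) *
          (U * Matrix.diagonal (fun i => √(l i)))
        = Matrix.diagonal (fun i => √(l i)) * (Uᵀ * U) * Matrix.diagonal d * (Uᵀ * U) *
          Matrix.diagonal (fun i => √(l i)) := by simp only [Matrix.mul_assoc]
      _ = Matrix.diagonal (fun i => l i * d i) := by
          rw [hU2, Matrix.mul_one, Matrix.mul_one, Matrix.diagonal_mul_diagonal,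
            Matrix.diagonal_mul_diagonal]
          congr 1
          funext i
          have := Real.mul_self_sqrt (hl0 i)
          calc √(l i) * d i * √(l i) = (√(l i) * √(l i)) * d i := by ring
            _ = l i * d i := by rw [this]
  have hsys := LTd.congr_sys h K
  have htot : LTd.Tot (fun x => K * R x * Kᵀ) = Matrix.diagonal l := by
    rw [LTd.congr_tot h K, hT]
    have h1 := hKK (fun _ => 1)
    have h2 : U * Matrix.diagonal (fun _ : Fin n => (1 : ℝ)) * Uᵀ = 1 := by
      rw [Matrix.diagonal_one, Matrix.mul_one, hU1]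
    rw [h2] at h1
    rw [h1]
    congr 1
    funext i
    ring
  obtain ⟨G, hGc, hGs, hG1, hG2⟩ := LTd.blockC hsys l htot (g := g) (a := 1) (by linarith) one_pos
  -- the positive parts
  set Wp : Fin n → ℝ → ℝ := fun j t => (max (W j t) 0) ^ ((k : ℝ) / 2) with hWp
  have hWp0 : ∀ j t, 0 ≤ Wp j t := fun j t => Real.rpow_nonneg (le_max_right _ _) _
  have hWpm : ∀ j, Measurable (Wp j) := fun j => ((hW j).max measurable_const).pow_const _
  by_cases hfin : ∀ j, ∫⁻ t, ENNReal.ofReal (Wp j t) ≠ ⊤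
  swap
  · push_neg at hfin
    obtain ⟨j, hj⟩ := hfin
    have h1 : ∑ j, ∫⁻ t, ENNReal.ofReal (Wp j t) = ⊤ :=
      (ENNReal.sum_eq_top).2 ⟨j, Finset.mem_univ _, hj⟩
    have h2 : ENNReal.ofReal (Pool.Agent.N537.RS.LL k) * ∑ j, ∫⁻ t, ENNReal.ofReal (Wp j t) = ⊤ := by
      rw [h1, ENNReal.mul_top]
      simpa using hLL
    rw [h2]
    exact le_top
  have hWi : ∀ j, Integrable (Wp j) := by
    intro j
    refine ⟨(hWpm j).aestronglyMeasurable, ?_⟩
    rw [hasFiniteIntegral_iff_norm]
    have e1 : ∀ t, ‖Wp j t‖ = Wp j t := fun t => by rw [Real.norm_eq_abs, abs_of_nonneg (hWp0 j t)]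
    simp only [e1]
    exact lt_top_iff_ne_top.2 (hfin j)
  -- the pointwise inequality
  have hpt : ∀ t, (K * N t * Kᵀ).trace ≤ G t + c * ∑ j, Wp j t := by
    intro t
    set Y : Mat n := F t * Kᵀ with hYd
    have hYt : Yᵀ = K * (F t)ᵀ := by
      rw [hYd, Matrix.transpose_mul, Matrix.transpose_transpose]
    obtain ⟨V, r, hV1, hV2, hr, hR⟩ := LTd.specP (LTd.sys_psd hsys t)
    have hR' : Yᵀ * Y = V * Matrix.diagonal r * Vᵀ := by
      rw [← hR, hYt, hYd, hF t]
      simp only [Matrix.mul_assoc]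
    set p : ℝ := LTd.pp (g + 1 / 2) with hp
    have hp1 : 1 ≤ p := by
      rw [hp]
      unfold LTd.pp
      rw [le_div_iff₀ (by linarith)]
      linarith
    have h1 := hJ n Y V r p hp1 hr ⟨hV1, hV2, hR'⟩
    have h2 := hG1 t V r hV1 hV2 hr hR
    have h3 : (K * N t * Kᵀ).trace = ∑ j, W j t * (Y * Yᵀ) j j := by
      have e1 : K * N t * Kᵀ = Yᵀ * (Matrix.diagonal (fun j => W j t) * Y) := by
        rw [hN t, hYt, hYd]
        simp only [Matrix.mul_assoc]
      rw [e1, Matrix.trace_mul_comm, Matrix.mul_assoc, Matrix.trace]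
      refine Finset.sum_congr rfl fun j _ => ?_
      rw [Matrix.diag_apply, Matrix.diagonal_mul]
    have h4 : ∀ j, 0 ≤ (Y * Yᵀ) j j := by
      intro j
      rw [Matrix.mul_apply]
      refine Finset.sum_nonneg fun i _ => ?_
      rw [Matrix.transpose_apply]
      exact mul_self_nonneg _
    have h5 : ∀ j, W j t * (Y * Yᵀ) j j ≤ b * ((Y * Yᵀ) j j) ^ p + c * Wp j t := by
      intro j
      have h6 := hY.1 (g + 1 / 2) b ((Y * Yᵀ) j j) (W j t) (by linarith) hb0 (h4 j)
      rw [← hp, ← hc, hgk] at h6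
      exact h6
    rw [h3]
    calc ∑ j, W j t * (Y * Yᵀ) j j ≤ ∑ j, (b * ((Y * Yᵀ) j j) ^ p + c * Wp j t) :=
          Finset.sum_le_sum fun j _ => h5 j
      _ = b * ∑ j, ((Y * Yᵀ) j j) ^ p + c * ∑ j, Wp j t := by
          rw [Finset.sum_add_distrib, Finset.mul_sum, Finset.mul_sum]
      _ ≤ b * ∑ i, r i ^ p + c * ∑ j, Wp j t := by
          have := mul_le_mul_of_nonneg_left h1 hb0.le
          linarith
      _ ≤ G t + c * ∑ j, Wp j t := by linarith
  -- integrate
  have hN1 := trace_int K N hNi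
  have hQ1 := trace_int K Q (fun i j => sys_intQ h i j)
  have hGi : Integrable G := hGc.integrable_of_hasCompactSupport hGs
  have hint : ∫ t, (K * N t * Kᵀ).trace ≤ (∫ t, G t) + c * ∑ j, ∫ t, Wp j t := by
    have h1 : Integrable (fun t => c * ∑ j, Wp j t) :=
      (integrable_finset_sum _ fun j _ => hWi j).const_mul c
    have h2 := integral_mono hN1.1 (hGi.add h1) (fun t => by
      simpa using hpt t)
    rw [integral_add' hGi h1] at h2
    have h3 : ∫ t, c * ∑ j, Wp j t = c * ∑ j, ∫ t, Wp j t := by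
      rw [integral_const_mul, integral_finset_sum _ fun j _ => hWi j]
    rw [h3] at h2
    exact h2
  -- the trace of the form
  have htr : ∑ i, l i * e i = (∫ t, (K * Q t * Kᵀ).trace) - ∫ t, (K * N t * Kᵀ).trace := by
    have h1 := hKK e
    rw [← hU3] at h1
    have h2 : (Matrix.of fun i j => (∫ t, Q t i j) - ∫ t, N t i j : Mat n) =
        (Matrix.of fun i j => ∫ t, Q t i j) - (Matrix.of fun i j => ∫ t, N t i j) := by
      ext i j
      simp
    rw [h2, Matrix.mul_sub, Matrix.sub_mul] at h1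
    rw [hQ1.2, hN1.2, ← Matrix.trace_sub, h1, Matrix.trace_diagonal]
  have hsum : ∀ i, l i * (-e i) - l i ^ LTd.pp g = LTd.cc g * (max (-e i) 0) ^ g := by
    intro i
    have h1 := hY.2 g (max (-e i) 0) (by linarith) (le_max_right _ _)
    rw [← h1]
    have h2 : l i * (-e i) = max (-e i) 0 * ((g - 1) / g * max (-e i) 0) ^ (g - 1) := by
      rcases le_total 0 (-e i) with h3 | h3
      · rw [max_eq_left h3]
        simp only [hl]
        rw [max_eq_left h3]
        ring
      · rw [max_eq_right h3]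
        simp only [hl]
        rw [max_eq_right h3, mul_zero, Real.zero_rpow (by linarith)]
        ring
    rw [h2]
  have hmain : LTd.cc g * ∑ i, (max (-e i) 0) ^ g ≤ c * ∑ j, ∫ t, Wp j t := by
    rw [Finset.mul_sum, ← Finset.sum_congr rfl fun i _ => hsum i, Finset.sum_sub_distrib]
    have h1 : ∑ i, l i * (-e i) = -∑ i, l i * e i := by
      rw [← Finset.sum_neg_distrib]
      exact Finset.sum_congr rfl fun i _ => by ring
    rw [h1, htr]
    have h2 := hG2
    simp only [one_mul] at h2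
    linarith
  have hmain' : ∑ i, (max (-e i) 0) ^ g ≤ Pool.Agent.N537.RS.LL k * ∑ j, ∫ t, Wp j t := by
    rw [hcc, mul_assoc] at hmain
    exact le_of_mul_le_mul_left hmain hccg
  -- back to extended numbers
  have hE : ∑ j, ∫⁻ t, ENNReal.ofReal (Wp j t) = ENNReal.ofReal (∑ j, ∫ t, Wp j t) := by
    rw [ENNReal.ofReal_sum_of_nonneg fun j _ => integral_nonneg (hWp0 j)]
    refine Finset.sum_congr rfl fun j _ => ?_
    rw [ofReal_integral_eq_lintegral_ofReal (hWi j) (Eventually.of_forall (hWp0 j))]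
  rw [hE, ← ENNReal.ofReal_mul hLL.le, ← ENNReal.ofReal_sum_of_nonneg
    fun i _ => Real.rpow_nonneg (le_max_right _ _) _]
  exact ENNReal.ofReal_le_ofReal hmain'

end Pool.Agent.Run7.H894.LK.LTVp
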