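import Pool.Agent.N537.RS.Stm
import Pool.Agent.Helper717.LT.Defs

/-!
# Project LK (helper894): the kinetic Lieb-Thirring inequality with the semiclassical constant for
closed shells in `k ≥ 6` of the variables, with arbitrary dependence on the other `m` variables

Statements of the parts, all as closed propositions. The final theorem is `S_FINAL`.

Plan. In the logarithmic variable `t = log |x|` a closed shell system on `ℝ^k × ℝ^m` consists of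
functions `φ_i(t, y)`, orthonormal with the weight `exp (2 t)` within each angular momentum, and the
kinetic energy is `∑ g_i ∫ (|∂_t φ_i|² + ν_i² |φ_i|² + exp (2 t) |∇_y φ_i|²)`. The first two terms are
bounded below, by a matrix valued form of the inequality of the starting file `AllClosedShells`
(`S_KINM`; the slices `φ_i(t, ·)` enter only through their Gram matrices `R`, `Q`), by
`Kp ∫ exp (4 t / k) tr B(t)^(1 + 2 / k)`, `B(t)` the weighted Gram matrix of the slices; then for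
every `t` the semiclassical inequality `LTd.T_all` in `ℝ^m` for the exponent `g = k / 2 + 1` is applied.

All matrices are real, `Fin n × Fin n`. Notation: a spectral decomposition of a symmetric matrix `B`
is `B = U * diagonal e * Uᵀ` with `U * Uᵀ = 1` and `Uᵀ * U = 1`.
-/

set_option autoImplicit false

open MeasureTheory Set Filter Topology
open scoped Matrix

namespace Pool.Agent.Run7.H894.LK

open LTd (Mat)

noncomputable section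

/-- bilinear form of a matrix -/
def bf {n : ℕ} (M : Mat n) (u v : Fin n → ℝ) : ℝ := ∑ i, ∑ j, u i * v j * M i j

/-- symmetric and positive definite -/
def Pos {n : ℕ} (M : Mat n) : Prop :=
  (∀ i j, M i j = M j i) ∧ ∀ v : Fin n → ℝ, v ≠ 0 → 0 < bf M v v

/-- spectral decomposition -/
def Spec {n : ℕ} (B U : Mat n) (e : Fin n → ℝ) : Prop :=
  U * Uᵀ = 1 ∧ Uᵀ * U = 1 ∧ B = U * Matrix.diagonal e * Uᵀ

/-- the constant of the inequality in the logarithmic variable -/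
def Kp (k : ℕ) : ℝ :=
  (k : ℝ) / (k + 2) * (2 / ((k - 1).factorial : ℝ) * Pool.Agent.N537.RS.LL k) ^ (-(2 / (k : ℝ)))

/-- `ν = l + (k - 2) / 2` -/
def nu (k l : ℕ) : ℝ := (l : ℝ) + ((k : ℝ) - 2) / 2

/-- the Gram matrix with the weight `exp (2 t)` -/
def WM {n : ℕ} (R : ℝ → Mat n) : Mat n := Matrix.of fun i j => ∫ t, Real.exp (2 * t) * R t i j

/-- every diagonal block of `M` (indices with the same label) is at most `1` -/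
def BlockLe {n : ℕ} (lab : Fin n → ℕ) (M : Mat n) : Prop :=
  ∀ (l : ℕ) (c : Fin n → ℝ), (∀ i, lab i ≠ l → c i = 0) → bf M c c ≤ ∑ i, c i ^ 2

/-! ### Elementary parts -/

/-- LK/JEN. Proof: `Z = Y V` has orthogonal columns with `|z_i|² = r_i`, and
`(Y Yᵀ)_jj = (Z Zᵀ)_jj = ∑_i Z_ji²`. For `r_i = 0` the column is `0`; put `s_ji = Z_ji² / r_i`
(`0` if `r_i = 0`), so `(Y Yᵀ)_jj = ∑_i s_ji r_i`, `∑_j s_ji ≤ 1`, and `∑_i s_ji ≤ 1` by Bessel's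
inequality for the orthonormal vectors `z_i / √r_i` and the unit vector `e_j`. As `x ^ p` is convex and
`0 ^ p = 0`, `(∑_i s_ji r_i)^p ≤ ∑_i s_ji r_i^p`; sum over `j`. -/
def S_JEN : Prop := ∀ (n : ℕ) (Y V : Mat n) (r : Fin n → ℝ) (p : ℝ), 1 ≤ p → (∀ i, 0 ≤ r i) →
  Spec (Yᵀ * Y) V r → ∑ j, ((Y * Yᵀ) j j) ^ p ≤ ∑ i, r i ^ p

/-- LK/YOU. Young's inequality and the case of equality. `pp G = G / (G - 1)`,
`cc G = (G - 1)^(G - 1) / G^G`. First part: for `w ≤ 0` clear; for `w > 0` maximise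
`w x - b x^(pp G)` over `x ≥ 0` (the maximum is at `x = ((G - 1) w / (G b))^(G - 1)`), or use
`Real.young_inequality`. Second part: the value at the maximum for `b = 1`. -/
def S_YOU : Prop :=
  (∀ G b x w : ℝ, 1 < G → 0 < b → 0 ≤ x →
    w * x ≤ b * x ^ LTd.pp G + LTd.cc G * b ^ (1 - G) * (max w 0) ^ G) ∧
  ∀ G e : ℝ, 1 < G → 0 ≤ e →
    e * ((G - 1) / G * e) ^ (G - 1) - (((G - 1) / G * e) ^ (G - 1)) ^ LTd.pp G = LTd.cc G * e ^ G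

/-- LK/CLT. `cc (k/2) / (JJ (1/2) ((k-1)/2) * cc ((k-1)/2)) = LL k`. Unfold: the left side is
`Γ((k+1)/2) / ((4 π)^(1/2) Γ(k/2 + 1))`, the right side `k! / (2^(k+1) Γ(k/2+1)²)`; use the duplication
formula `Real.Gamma_mul_Gamma_add_half` (with `s = (k+1)/2`) and `Gamma (k+1) = k!`. -/
def S_CLT : Prop := ∀ k : ℕ, 6 ≤ k →
  LTd.cc (((k : ℝ) - 1) / 2 + 1 / 2) *
    (LTd.bco (1 / 2) (((k : ℝ) - 1) / 2) 1) ^ (1 - (((k : ℝ) - 1) / 2 + 1 / 2)) =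
  LTd.cc (((k : ℝ) - 1) / 2) * Pool.Agent.N537.RS.LL k

/-- LK/CSD. Constants, `d = k + m`. By `N537.RS.S_CST` (theorem `CS.t_CST`)
`Kcl k = sg k ^ (2/k) * Kp k`, so with `bco h g a = (JJ h g * a^(g-1))^(1/(g+h-1))` the right side is
`(JJ (m/2) (k/2+1) * (Kcl k)^(k/2))^(2/d)`; insert `Kcl` (volume of the ball:
`Real.volume_ball`/`om_sq`, `ω_d = π^(d/2) / Γ(d/2+1)`) and `JJ`. Checked numerically. -/
def S_CSD : Prop := ∀ k m : ℕ, 6 ≤ k →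
  Pool.Agent.R117.RL.Kcl (k + m) = Pool.Agent.R117.RL.sg k ^ (2 / ((k : ℝ) + m)) *
    LTd.bco ((m : ℝ) / 2) ((k : ℝ) / 2 + 1) (Kp k)

/-! ### The matrix valued inequality on the line -/

/-- LK/LTV: the sharp Lieb-Thirring inequality on the line for the exponent `(k-1)/2`, for matrix
valued potentials, compressed to a finite dimensional space. `N(t) = F(t)ᵀ diag(W_j(t)) F(t)` is the
matrix of the potential in the system, `R(t) = F(t)ᵀ F(t)`.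
Proof from `LTd.blockC`, `S_JEN`, `S_YOU`, `S_CLT`. Let `g = (k-1)/2`, `b = bco (1/2) g 1 > 0`,
`l_i = ((g-1)/g * max (-e_i) 0)^(g-1)`, `K = diagonal (√l_i) * Uᵀ`. By `congr_sys`, `congr_tot` the
system `K R Kᵀ, K S Kᵀ, K Q Kᵀ` has `Tot = diagonal l`; let `G` be the function of `blockC` for
`a = 1`. For every `t`, with `Y = F(t) Kᵀ`: `K R Kᵀ = Yᵀ Y = V diagonal r Vᵀ` (`LTd.specP`), `X = Y Yᵀ`
and `tr (K N Kᵀ) = ∑_j W_j X_jj ≤ b ∑_j X_jj^(pp (g+1/2)) + cc (g+1/2) b^(1-(g+1/2)) ∑_j (W_j)_+^(g+1/2)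
≤ G t + cc (g+1/2) b^(1-(g+1/2)) ∑_j (W_j)_+^(k/2)`. Suppose the right side of the claim is finite and
integrate. Since `∑ l_i e_i = tr (K (∫Q - ∫N) Kᵀ) = ∫ tr (K Q Kᵀ) - ∫ tr (K N Kᵀ)
≥ (∫ G - ∑ l_i^(pp g)) - ∫ tr (K N Kᵀ)`, we get
`∑ (l_i (-e_i) - l_i^(pp g)) ≤ cc (g+1/2) b^(1-(g+1/2)) ∫ ∑_j (W_j)_+^(k/2)`, and the left side is
`cc g ∑ (max (-e_i) 0)^g` by the second part of `S_YOU`; divide by `cc g > 0`, `S_CLT`. -/
def S_LTV : Prop := ∀ k : ℕ, 6 ≤ k → ∀ (n : ℕ) (R S Q : ℝ → Mat n), LTd.Sys R S Q →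
  LTd.Tot R = 1 → ∀ (F N : ℝ → Mat n) (W : Fin n → ℝ → ℝ),
  (∀ t, R t = (F t)ᵀ * F t) →
  (∀ t, N t = (F t)ᵀ * Matrix.diagonal (fun j => W j t) * F t) →
  (∀ i j, Integrable fun t => N t i j) → (∀ j, Measurable (W j)) →
  ∀ (U : Mat n) (e : Fin n → ℝ),
  Spec (Matrix.of fun i j => (∫ t, Q t i j) - ∫ t, N t i j) U e →
  ∑ i, ENNReal.ofReal ((max (-e i) 0) ^ (((k : ℝ) - 1) / 2)) ≤
    ENNReal.ofReal (Pool.Agent.N537.RS.LL k) *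
      ∑ j, ∫⁻ t, ENNReal.ofReal ((max (W j t) 0) ^ ((k : ℝ) / 2))

/-- LK/EIG: the eigenvalues of a real symmetric matrix, as a complex matrix. Proof: the
characteristic polynomial of `H.map ofReal` is the product of `X - e_i`, and also of
`X - eigenvalues i` (`Matrix.IsHermitian.charpoly_eq`, `charpoly_map`, or
`IsHermitian.roots_charpoly_eq_eigenvalues`); so the two multisets agree. -/
def S_EIG : Prop := ∀ (n : ℕ) (H U : Mat n) (e : Fin n → ℝ), Spec H U e →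
  ∀ (h : (H.map (fun x : ℝ => (x : ℂ))).IsHermitian) (f : ℝ → ENNReal),
  ∑ i, f (h.eigenvalues i) = ∑ i, f (e i)

/-- LK/LAR1: real form of `N537.RS.S_LA` (theorem `LA.t_LA`), with a majorant `Ψ`. Proof: apply
`S_LA` to the complex matrices `A.map ofReal`, `M.map ofReal` and the vectors `v` as complex vectors;
for `τ > 0` the matrix `A + τ M` is symmetric, hence has a spectral decomposition `U, e`
(`Matrix.IsHermitian.spectral_theorem` over `ℝ`), use `S_EIG` and `lintegral_mono`. -/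
def S_LAR1 : Prop := ∀ k : ℕ, 6 ≤ k → ∀ (n : ℕ) (A M : Mat n), (∀ i j, A i j = A j i) → Pos M →
  ∀ (Λ : Finset ℕ) (g N : ℕ → ℕ), (∀ l ∈ Λ, g l ≤ Pool.Agent.N537.RS.hdim k l) →
  ∀ v : ∀ l, Fin (N l) → Fin n → ℝ,
  (∀ l ∈ Λ, ∀ a b, bf M (v l a) (v l b) = if a = b then (1 : ℝ) else 0) →
  ∀ Ψ : ℝ → ENNReal,
  (∀ τ : ℝ, 0 < τ → ∀ (U : Mat n) (e : Fin n → ℝ), Spec (A + τ • M) U e →
    ∑ i, ENNReal.ofReal ((max (-e i) 0) ^ (((k : ℝ) - 1) / 2)) ≤ Ψ τ) →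
  ENNReal.ofReal (∑ l ∈ Λ, (g l : ℝ) *
      (-(∑ a, bf A (v l a) (v l a)) - nu k l ^ 2 * ∑ a, ∑ i, v l a i ^ 2)) ≤
    ENNReal.ofReal (2 / ((k - 1).factorial : ℝ)) * ∫⁻ τ in Ioi (0 : ℝ), Ψ τ

/-- LK/LAR: the same for families whose Gram matrices for `M` are at most `1`. Proof from `S_LAR1`: for
`l ∈ Λ` let `Γ_ab = bf M (v l a) (v l b)` (symmetric, positive semidefinite, `≤ 1`),
`Γ = O diagonal λ Oᵀ`, `0 ≤ λ_i ≤ 1`, and `v'_i = λ_i^(-1/2) ∑_a O_ai v_a` for `λ_i > 0`: orthonormal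
for `M`. If `λ_i = 0` then `∑_a O_ai v_a = 0` since `M` is positive definite. For every quadratic form
`q` one has `∑_a q(v_a) = ∑_{λ_i > 0} λ_i q(v'_i)`. Take `q(v) = -bf A v v - ν² |v|²` and only those `i`
with `λ_i > 0` and `q(v'_i) > 0` (a smaller orthonormal family, indexed by some `Fin (N' l)`):
`∑_a q(v_a) ≤ ∑_{those i} q(v'_i)`. -/
def S_LAR : Prop := ∀ k : ℕ, 6 ≤ k → ∀ (n : ℕ) (A M : Mat n), (∀ i j, A i j = A j i) → Pos M →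
  ∀ (Λ : Finset ℕ) (g N : ℕ → ℕ), (∀ l ∈ Λ, g l ≤ Pool.Agent.N537.RS.hdim k l) →
  ∀ v : ∀ l, Fin (N l) → Fin n → ℝ,
  (∀ l ∈ Λ, ∀ c : Fin (N l) → ℝ,
    ∑ a, ∑ b, c a * c b * bf M (v l a) (v l b) ≤ ∑ a, c a ^ 2) →
  ∀ Ψ : ℝ → ENNReal,
  (∀ τ : ℝ, 0 < τ → ∀ (U : Mat n) (e : Fin n → ℝ), Spec (A + τ • M) U e →
    ∑ i, ENNReal.ofReal ((max (-e i) 0) ^ (((k : ℝ) - 1) / 2)) ≤ Ψ τ) →
  ENNReal.ofReal (∑ l ∈ Λ, (g l : ℝ) *
      (-(∑ a, bf A (v l a) (v l a)) - nu k l ^ 2 * ∑ a, ∑ i, v l a i ^ 2)) ≤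
    ENNReal.ofReal (2 / ((k - 1).factorial : ℝ)) * ∫⁻ τ in Ioi (0 : ℝ), Ψ τ

/-- LK/CHO: a positive definite matrix is `L Lᵀ` with `L` invertible (spectral theorem,
`L = U * diagonal (√e)`). -/
def S_CHO : Prop := ∀ (n : ℕ) (T : Mat n), Pos T →
  ∃ L L' : Mat n, L * L' = 1 ∧ L' * L = 1 ∧ T = L * Lᵀ

/-- LK/DUALM: the dual inequality. Proof from `S_LTV`, `S_LAR`, `S_CHO` and `N537.RS.S_TAU` (theorem
`TA.t_TAU`). Write `Tot R = L Lᵀ`, `L' = L⁻¹`, `R^ = L' R L'ᵀ` and similarly `S^, Q^, N^`: a `Sys` with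
`Tot R^ = 1` (`congr_sys`, `congr_tot`); `M^ = WM R^ = L' (WM R) L'ᵀ` is positive definite (if
`∫ exp (2t) xᵀ R x = 0` then `xᵀ R(t) x = 0` for all `t`, by continuity, so `xᵀ (Tot R) x = 0`);
`A^ = ∫ Q^ - ∫ N^`. For `τ > 0` `S_LTV` with `F^ = F L'ᵀ`, `W_j = exp (2t) (V_j - τ)` (potential matrix
`N^ - τ exp (2t) R^`) bounds the sum for `A^ + τ M^` by
`Ψ τ = ofReal (LL k) * ∑_j ∫⁻ ofReal ((max (exp (2t) (V_j t - τ)) 0)^(k/2))`. Apply `S_LAR` with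
`Λ` = the set of the labels, `N l` = the number of the `i` with `lab i = l`, and `v l a` = the rows of
`L` with label `l` (then `bf M^ (v_i) (v_j) = (WM R) i j`, `bf A^ (v_i) (v_i) = ∫ Q_ii - ∫ N_ii`,
`|v_i|² = ∫ R_ii`). Finally `∫⁻_(τ > 0) Ψ` is computed by `S_TAU` for every `j`. -/
def S_DUALM : Prop := ∀ k : ℕ, 6 ≤ k → ∀ (n : ℕ) (R S Q : ℝ → Mat n), LTd.Sys R S Q →
  Pos (LTd.Tot R) → ∀ (lab : Fin n → ℕ) (g : ℕ → ℕ),
  (∀ i, g (lab i) ≤ Pool.Agent.N537.RS.hdim k (lab i)) → BlockLe lab (WM R) →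
  ∀ (F N : ℝ → Mat n) (V : Fin n → ℝ → ℝ), (∀ j, Measurable (V j)) → (∀ j t, 0 ≤ V j t) →
  (∀ t, R t = (F t)ᵀ * F t) →
  (∀ t, N t = (F t)ᵀ * Matrix.diagonal (fun j => Real.exp (2 * t) * V j t) * F t) →
  (∀ i j, Integrable fun t => N t i j) →
  ENNReal.ofReal (∑ i, (g (lab i) : ℝ) *
      ((∫ t, N t i i) - (∫ t, Q t i i) - nu k (lab i) ^ 2 * ∫ t, R t i i)) ≤
    ENNReal.ofReal (2 / ((k - 1).factorial : ℝ) * Pool.Agent.N537.RS.LL k *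
      (2 / ((k : ℝ) + 2))) *
      ∑ j, ∫⁻ t, ENNReal.ofReal (Real.exp (k * t) * V j t ^ (1 + (k : ℝ) / 2))

/-- LK/MEIG: measurable eigenvalues. Proof: let `b_j(t)` be the eigenvalues in decreasing order
(`Matrix.IsHermitian.eigenvalues₀`, antitone). For a polynomial `p`, `∑_j p(b_j(t)) = tr p(B(t))` is
continuous in `t`; the indicator function of `(c, ∞)` is a pointwise limit of continuous functions, and
a continuous function is on every `[0, N]` a uniform limit of polynomials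
(`exists_polynomial_near_of_continuousOn`), so the number of the `j` with `b_j(t) > c` is a measurable
function of `t`; and `b_j(t) > c` iff this number is at least `j + 1`. -/
def S_MEIG : Prop := ∀ (n : ℕ) (B : ℝ → Mat n), (∀ i j, Continuous fun t => B t i j) →
  (∀ t, LTd.PSD (B t)) → ∃ b : Fin n → ℝ → ℝ, (∀ j, Measurable (b j)) ∧ (∀ j t, 0 ≤ b j t) ∧
    ∀ t, ∃ V : Mat n, Spec (B t) V (fun j => b j t)

/-- LK/NPW: the powers of a continuous matrix function are measurable (pointwise limit of `p_q(B(t))`,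
polynomials `p_q → x^s` pointwise on `[0, ∞)`). -/
def S_NPW : Prop := ∀ (n : ℕ) (B V : ℝ → Mat n) (b : Fin n → ℝ → ℝ) (s : ℝ), 0 < s →
  (∀ i j, Continuous fun t => B t i j) → (∀ j t, 0 ≤ b j t) →
  (∀ t, Spec (B t) (V t) (fun j => b j t)) →
  ∀ i j, Measurable fun t => (V t * Matrix.diagonal (fun q => b q t ^ s) * (V t)ᵀ) i j

/-- `f` is below the trace of the power `1 + 2 / k` of the weighted matrix -/
def Below (k n : ℕ) (w : Fin n → ℝ) (R : ℝ → Mat n) (f : ℝ → ℝ) : Prop :=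
  ∀ (t : ℝ) (V : Mat n) (r : Fin n → ℝ), (∀ i, 0 ≤ r i) →
    Spec (Matrix.of fun i j => √(w i) * √(w j) * R t i j) V r →
    f t ≤ Kp k * Real.exp (4 * t / k) * ∑ i, r i ^ (1 + 2 / (k : ℝ))

/-- LK/KINP: the kinetic inequality in the positive definite case. Proof from `S_DUALM`, `S_MEIG`,
`S_NPW`. Let `w_i = g (lab i) ≥ 1`, `B(t)_ij = √w_i √w_j R(t)_ij` (continuous, positive semidefinite by
`LTd.sys_psd`), `b_j`, `V(t)` from `S_MEIG`, `β = 2/(k-1)! * LL k > 0` (`S_CST`),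
`F(t) = diagonal (√b_j) V(t)ᵀ diagonal (1/√w_i)`, `V_j(t) = (exp (-(k-2) t) b_j(t) / β)^(2/k)`,
`N(t) = F(t)ᵀ diagonal (exp (2t) V_j) F(t)
= diagonal (1/√w) (V(t) diagonal (β^(-2/k) exp (4t/k) b_j^(1+2/k)) V(t)ᵀ) diagonal (1/√w)`:
measurable by `S_NPW`, bounded with compact support (`b_j ≤ tr B(t)`). With
`I = ∫ exp (4t/k) ∑_j b_j^(1+2/k)`: `∑_i w_i ∫ N_ii = β^(-2/k) I` and
`∑_j ∫ exp (k t) V_j^(1+k/2) = β^(-1-2/k) I`. So `S_DUALM` reads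
`β^(-2/k) I - E ≤ β * (2/(k+2)) * β^(-1-2/k) I`, i.e. `Kp k * I ≤ E`; and `f ≤ Kp exp (4t/k) ∑ b_j^(..)`. -/
def S_KINP : Prop := ∀ k : ℕ, 6 ≤ k → ∀ (n : ℕ) (R S Q : ℝ → Mat n), LTd.Sys R S Q →
  Pos (LTd.Tot R) → ∀ (lab : Fin n → ℕ) (g : ℕ → ℕ),
  (∀ i, 1 ≤ g (lab i) ∧ g (lab i) ≤ Pool.Agent.N537.RS.hdim k (lab i)) → BlockLe lab (WM R) →
  ∀ f : ℝ → ℝ, Integrable f → Below k n (fun i => (g (lab i) : ℝ)) R f →
  ∫ t, f t ≤ ∑ i, (g (lab i) : ℝ) *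
    ((∫ t, Q t i i) + nu k (lab i) ^ 2 * ∫ t, R t i i)

/-- LK/KINM: the same without positivity. Proof from `S_KINP`: let `η` be a smooth function with
compact support, `∫ η² > 0`, `C = ∫ exp (2t) η²`, `ε > 0`, and let `D = diagonal (1 / g (lab i))`.
Then `R' = R + ε² η² D`, `S' = S + ε² η η' D`, `Q' = Q + ε² η'² D` is a `Sys` with positive definite
`Tot`, `B' = B + ε² η² 1` (so the eigenvalues of `B'` are those of `B` plus `ε² η²`), and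
`WM R' ≤ 1 + ε² C` on blocks. Apply `S_KINP` to `(R', S', Q') / (1 + ε² C)` (with
`congr_sys`) and `f / (1 + ε² C)^(1+2/k)`, and let `ε → 0`. -/
def S_KINM : Prop := ∀ k : ℕ, 6 ≤ k → ∀ (n : ℕ) (R S Q : ℝ → Mat n), LTd.Sys R S Q →
  ∀ (lab : Fin n → ℕ) (g : ℕ → ℕ),
  (∀ i, 1 ≤ g (lab i) ∧ g (lab i) ≤ Pool.Agent.N537.RS.hdim k (lab i)) → BlockLe lab (WM R) →
  ∀ f : ℝ → ℝ, Integrable f → Below k n (fun i => (g (lab i) : ℝ)) R f →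
  ∫ t, f t ≤ ∑ i, (g (lab i) : ℝ) *
    ((∫ t, Q t i i) + nu k (lab i) ^ 2 * ∫ t, R t i i)

/-! ### From the line to `ℝ × ℝ^m` -/

/-- the exponent of the weight -/
def ex (k m : ℕ) : ℝ := 2 + (4 - 2 * (k : ℝ)) / ((k : ℝ) + m)

/-- LK/KINY: functions of `t = z 0` and `y`, continuously differentiable with compact support. Proof
from `S_KINM` and `LTd.T_slice`, `LTd.T_all`, exactly as in `LTd.T_succ` (file
`Helper717/LT/P_T_succ.lean`): `R = RS w`, `S = SS w`, `Q = QS w` is a `Sys` (`slice_sys`), and for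
every `t` `T_slice` with `g = k/2 + 1`, `a = Kp k * exp ((4/k - 2) t)` for the functions
`√g_i w_i(t, ·)` gives, after multiplication by `exp (2t)`,
`f(t) = exp (2t) * bco (m/2) (k/2+1) a * ∫_y (∑ g_i w_i²)^(1+2/(k+m)) - exp (2t) ∫_y ∑ g_i |∇_y w_i|²
≤ Kp k * exp (4t/k) * ∑ r_i^(1+2/k)`; note `pp (k/2+1) = 1 + 2/k`,
`pp (k/2+1+m/2) = 1 + 2/(k+m)` and
`bco (m/2) (k/2+1) (Kp k * s) = bco (m/2) (k/2+1) (Kp k) * s^(k/(k+m))`; `f` is continuous with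
compact support. -/
def S_KINY : Prop := ∀ k : ℕ, 6 ≤ k → ∀ (m n : ℕ) (w : Fin n → (Fin (m + 1) → ℝ) → ℝ),
  (∀ i, ContDiff ℝ 1 (w i)) → (∀ i, HasCompactSupport (w i)) →
  ∀ (lab : Fin n → ℕ) (g : ℕ → ℕ),
  (∀ i, 1 ≤ g (lab i) ∧ g (lab i) ≤ Pool.Agent.N537.RS.hdim k (lab i)) →
  BlockLe lab (Matrix.of fun i j => ∫ z, Real.exp (2 * z 0) * (w i z * w j z)) →
  LTd.bco ((m : ℝ) / 2) ((k : ℝ) / 2 + 1) (Kp k) *
    ∫ z, Real.exp (ex k m * z 0) * (∑ i, (g (lab i) : ℝ) * w i z ^ 2) ^ (1 + 2 / ((k : ℝ) + m)) ≤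
  ∑ i, (g (lab i) : ℝ) * ∫ z, (LTd.pd 0 (w i) z ^ 2 + nu k (lab i) ^ 2 * w i z ^ 2 +
    Real.exp (2 * z 0) * ∑ j : Fin m, LTd.pd j.succ (w i) z ^ 2)

/-- LK/CUT: without compact support. Proof from `S_KINY` for `w_ρ = η(z/ρ) w`, `η` smooth with compact
support, `0 ≤ η ≤ 1`, `η = 1` on the unit ball: `bf` of the Gram matrix of `w_ρ` is
`∫ exp (2 z 0) η_ρ² (∑ c_i w_i)² ≤ ∫ exp (2 z 0) (∑ c_i w_i)²`; the energies converge by dominated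
convergence (`|∂(η_ρ w)|² ≤ 2 |∂w|² + 2 C² w²` for `ρ ≥ 1`, and the same with the weight); on the left
use Fatou's lemma. -/
def S_CUT : Prop := ∀ k : ℕ, 6 ≤ k → ∀ (m n : ℕ) (w : Fin n → (Fin (m + 1) → ℝ) → ℝ),
  (∀ i, ContDiff ℝ 1 (w i)) →
  (∀ i, Integrable fun z => Real.exp (2 * z 0) * w i z ^ 2) →
  (∀ i, Integrable fun z => w i z ^ 2) →
  (∀ i, Integrable fun z => LTd.pd 0 (w i) z ^ 2) →
  (∀ i, ∀ j : Fin m, Integrable fun z => Real.exp (2 * z 0) * LTd.pd j.succ (w i) z ^ 2) →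
  ∀ (lab : Fin n → ℕ) (g : ℕ → ℕ),
  (∀ i, 1 ≤ g (lab i) ∧ g (lab i) ≤ Pool.Agent.N537.RS.hdim k (lab i)) →
  BlockLe lab (Matrix.of fun i j => ∫ z, Real.exp (2 * z 0) * (w i z * w j z)) →
  Integrable (fun z => Real.exp (ex k m * z 0) *
    (∑ i, (g (lab i) : ℝ) * w i z ^ 2) ^ (1 + 2 / ((k : ℝ) + m))) ∧
  LTd.bco ((m : ℝ) / 2) ((k : ℝ) / 2 + 1) (Kp k) *
    ∫ z, Real.exp (ex k m * z 0) * (∑ i, (g (lab i) : ℝ) * w i z ^ 2) ^ (1 + 2 / ((k : ℝ) + m)) ≤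
  ∑ i, (g (lab i) : ℝ) * ∫ z, (LTd.pd 0 (w i) z ^ 2 + nu k (lab i) ^ 2 * w i z ^ 2 +
    Real.exp (2 * z 0) * ∑ j : Fin m, LTd.pd j.succ (w i) z ^ 2)

/-- partial derivatives of complex functions -/
def pdc {m : ℕ} (j : Fin m) (φ : (Fin m → ℝ) → ℂ) (z : Fin m → ℝ) : ℂ :=
  fderiv ℝ φ z (Pi.single j 1)

/-- admissible functions of `t = z 0` and `y` -/
structure FnY {m : ℕ} (φ : (Fin (m + 1) → ℝ) → ℂ) : Prop where
  smooth : ContDiff ℝ 1 φ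
  i0 : Integrable fun z => Real.exp (2 * z 0) * ‖φ z‖ ^ 2
  i1 : Integrable fun z => ‖φ z‖ ^ 2
  i2 : Integrable fun z => ‖pdc 0 φ z‖ ^ 2
  i3 : ∀ j : Fin m, Integrable fun z => Real.exp (2 * z 0) * ‖pdc j.succ φ z‖ ^ 2

/-- LK/LOGK: complex functions. Proof from `S_CUT`: use the real functions `Re φ_ln`, `Im φ_ln` with
label `l` (index type `Fin n ≃ Σ l ∈ Λ, Fin (N l) ⊕ Fin (N l)`). For real `c, d`:
`∫ exp (2 z 0) (∑ c_n Re φ_ln + d_n Im φ_ln)² ≤ ∫ exp (2 z 0) |∑ (c_n - i d_n) φ_ln|² = ∑ c_n² + d_n²`. -/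
def S_LOGK : Prop := ∀ k : ℕ, 6 ≤ k → ∀ (m : ℕ) (Λ : Finset ℕ) (g N : ℕ → ℕ),
  (∀ l ∈ Λ, 1 ≤ g l ∧ g l ≤ Pool.Agent.N537.RS.hdim k l) →
  ∀ φ : ∀ l, Fin (N l) → (Fin (m + 1) → ℝ) → ℂ, (∀ l ∈ Λ, ∀ n, FnY (φ l n)) →
  (∀ l ∈ Λ, ∀ a b, ∫ z, (Real.exp (2 * z 0) : ℂ) * (star (φ l a z) * φ l b z) =
    if a = b then (1 : ℂ) else 0) →
  Integrable (fun z => Real.exp (ex k m * z 0) *
    (∑ l ∈ Λ, (g l : ℝ) * ∑ n, ‖φ l n z‖ ^ 2) ^ (1 + 2 / ((k : ℝ) + m))) ∧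
  LTd.bco ((m : ℝ) / 2) ((k : ℝ) / 2 + 1) (Kp k) *
    ∫ z, Real.exp (ex k m * z 0) *
      (∑ l ∈ Λ, (g l : ℝ) * ∑ n, ‖φ l n z‖ ^ 2) ^ (1 + 2 / ((k : ℝ) + m)) ≤
  ∑ l ∈ Λ, (g l : ℝ) * ∑ n, ∫ z, (‖pdc 0 (φ l n) z‖ ^ 2 + nu k l ^ 2 * ‖φ l n z‖ ^ 2 +
    Real.exp (2 * z 0) * ∑ j : Fin m, ‖pdc j.succ (φ l n) z‖ ^ 2)

/-- LK/HDY: Hardy's inequality for the slices. Proof: for almost every `y` the function
`t ↦ φ (Fin.cons t y)` satisfies the hypotheses of `N537.RS.S_HARDY` (theorem `t_HARDY` in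
`N537/RS/Hardy.lean`) by Fubini's theorem; integrate the conclusion over `y` (all integrands are
continuous; use the measurable equivalence `Fin (m+1) → ℝ ≃ ℝ × (Fin m → ℝ)`,
`MeasurableEquiv.piFinSuccAbove` / `volume_preserving_piFinSuccAbove`, as in
`Helper717/LT/P_slice_int.lean`). -/
def S_HDY : Prop := ∀ (m : ℕ) (a μ : ℝ), 0 < a → 0 ≤ μ → ∀ φ : (Fin (m + 1) → ℝ) → ℂ,
  ContDiff ℝ 1 φ → Integrable (fun z => Real.exp (2 * z 0) * ‖φ z‖ ^ 2) →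
  Integrable (fun z => ‖pdc 0 φ z - (a : ℂ) * φ z‖ ^ 2 + μ * ‖φ z‖ ^ 2 +
    Real.exp (2 * z 0) * ∑ j : Fin m, ‖pdc j.succ φ z‖ ^ 2) →
  FnY φ ∧ (∫ z, (‖pdc 0 φ z‖ ^ 2 + (a ^ 2 + μ) * ‖φ z‖ ^ 2 +
      Real.exp (2 * z 0) * ∑ j : Fin m, ‖pdc j.succ φ z‖ ^ 2)) ≤
    ∫ z, (‖pdc 0 φ z - (a : ℂ) * φ z‖ ^ 2 + μ * ‖φ z‖ ^ 2 +
      Real.exp (2 * z 0) * ∑ j : Fin m, ‖pdc j.succ φ z‖ ^ 2)

/-! ### Closed shells on `ℝ^k × ℝ^m` -/

open Pool.Agent.R117.RL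

/-- the space `ℝ^k × ℝ^m` -/
abbrev Sp (k m : ℕ) : Type := E k × (Fin m → ℝ)

/-- `|∇u|²` -/
def gradS {k m : ℕ} (u : Sp k m → ℂ) (p : Sp k m) : ℝ :=
  (∑ i : Fin k, ‖fderiv ℝ u p (EuclideanSpace.single i 1, 0)‖ ^ 2) +
    ∑ j : Fin m, ‖fderiv ℝ u p (0, Pi.single j 1)‖ ^ 2

/-- An orthonormal system of the functions `u_{n,j}(x, y) = G_n(|x|, y) P_j(x)`. -/
structure CylSystem {k m g N : ℕ} (P : Fin g → E k → ℝ) (u : Fin N → Fin g → Sp k m → ℂ) :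
    Prop where
  form : ∃ G : Fin N → ℝ × (Fin m → ℝ) → ℂ, (∀ n, ContDiffOn ℝ 1 (G n) {z | 0 < z.1}) ∧
    ∀ n j p, u n j p = G n (‖p.1‖, p.2) * P j p.1
  square : ∀ n j, Integrable (fun p => ‖u n j p‖ ^ 2)
  energy : ∀ n j, Integrable (gradS (u n j))
  orthonormal : ∀ n n' i j, ∫ p, star (u n i p) * u n' j p =
    if n = n' ∧ i = j then (1 : ℂ) else 0

/-- LK/CYL: integrals in cylindrical coordinates and the logarithmic variable. For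
`h : (Fin (m+1) → ℝ) → F`: `∫ h (log |x|, y) dx dy = sg k ∫ exp (k t) h (t, y)`, and integrability.
Proof: Fubini, `LO.log_integral` and `LO.log_integrable` (file `N537/RS/Log.lean`) for functions with
values in `ℝ` or `ℂ`; for the integrability use norms and `lintegral`, or first nonnegative functions. -/
def S_CYL : Prop := ∀ k m : ℕ, 6 ≤ k → ∀ h : (Fin (m + 1) → ℝ) → ℂ, Measurable h →
  (Integrable (fun p : Sp k m => h (Fin.cons (Real.log ‖p.1‖) p.2)) ↔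
    Integrable (fun z : Fin (m + 1) → ℝ => (Real.exp ((k : ℝ) * z 0) : ℂ) * h z)) ∧
  ∫ p : Sp k m, h (Fin.cons (Real.log ‖p.1‖) p.2) =
    (sg k : ℂ) * ∫ z : Fin (m + 1) → ℝ, (Real.exp ((k : ℝ) * z 0) : ℂ) * h z

/-- LK/GRC: the gradient. Let `x ≠ 0`, `φ(t, y) = c exp ((l + (k-2)/2) t) G(exp t, y)` with
`c² = sg k / g`. Then `∑_j |∇(G P_j)|²` at `(x, y)` is
`(g / sg k) |x|^(-k) (|∂_t φ - a φ|² + l (l + k - 2) |φ|² + |x|² |∇_y φ|²)` at `t = log |x|`,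
`a = (k - 2) / 2`. Proof: for the derivatives in `x` use `grad_shell` and `grad_prod` (file
`R117/RL/ShellFull.lean`, for fixed `y`; for `l = 0` the multiplet is one constant, see `grad_any` in
`N537/RS/Log.lean`), for the derivatives in `y` use `∑ P_j² = |x|^(2l)`. -/
def S_GRC : Prop := ∀ k m g l : ℕ, 6 ≤ k → 0 < g → ∀ P : Fin g → E k → ℝ, Shell l P →
  ∀ G : ℝ × (Fin m → ℝ) → ℂ, ContDiffOn ℝ 1 G {z | 0 < z.1} →
  ∀ φ : (Fin (m + 1) → ℝ) → ℂ,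
  (∀ z, φ z = ((√(sg k / g) * Real.exp (((l : ℝ) + ((k : ℝ) - 2) / 2) * z 0) : ℝ) : ℂ) *
    G (Real.exp (z 0), fun j => z j.succ)) →
  ContDiff ℝ 1 φ ∧ ∀ p : Sp k m, p.1 ≠ 0 →
    ∑ j, gradS (fun q : Sp k m => G (‖q.1‖, q.2) * (P j q.1 : ℂ)) p =
      (g : ℝ) / sg k / ‖p.1‖ ^ k *
        (‖pdc 0 φ (Fin.cons (Real.log ‖p.1‖) p.2) -
            ((((k : ℝ) - 2) / 2 : ℝ) : ℂ) * φ (Fin.cons (Real.log ‖p.1‖) p.2)‖ ^ 2 +
          (l : ℝ) * ((l : ℝ) + k - 2) * ‖φ (Fin.cons (Real.log ‖p.1‖) p.2)‖ ^ 2 +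
          ‖p.1‖ ^ 2 * ∑ j : Fin m, ‖pdc j.succ φ (Fin.cons (Real.log ‖p.1‖) p.2)‖ ^ 2)

/-- LK/POL: the radial functions of a cylindrical system. Proof from `S_CYL`, `S_GRC`, `S_HDY` as
`LO` in `N537/RS/Log.lean`: `φ_n` as in `S_GRC`; `∑_j star (u_a j) u_b j = star φ_a φ_b * (g/sg k)
|x|^(-(k-2))`, so that the integral over `x, y` is `g ∫ exp (2t) star φ_a φ_b`. `ν² = a² + μ` with
`a = (k-2)/2`, `μ = l (l + k - 2)`. -/
def S_POL : Prop := ∀ k m g l N : ℕ, 6 ≤ k → 0 < g → ∀ P : Fin g → E k → ℝ, Shell l P →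
  ∀ u : Fin N → Fin g → Sp k m → ℂ, CylSystem P u →
  ∃ φ : Fin N → (Fin (m + 1) → ℝ) → ℂ, (∀ n, FnY (φ n)) ∧
    (∀ a b, ∫ z, (Real.exp (2 * z 0) : ℂ) * (star (φ a z) * φ b z) =
      if a = b then (1 : ℂ) else 0) ∧
    (∀ p : Sp k m, p.1 ≠ 0 → ∑ n, ∑ j, ‖u n j p‖ ^ 2 =
      (g : ℝ) / sg k / ‖p.1‖ ^ (k - 2) *
        ∑ n, ‖φ n (Fin.cons (Real.log ‖p.1‖) p.2)‖ ^ 2) ∧
    (g : ℝ) * ∑ n, ∫ z, (‖pdc 0 (φ n) z‖ ^ 2 + nu k l ^ 2 * ‖φ n z‖ ^ 2 +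
      Real.exp (2 * z 0) * ∑ j : Fin m, ‖pdc j.succ (φ n) z‖ ^ 2) ≤
      ∑ n, ∑ j, ∫ p, gradS (u n j) p

/-- LK/FIN: the final theorem. Proof from `S_LOGK`, `S_POL`, `S_CYL`, `S_CSD` as in
`N537/RS/Fin.lean`: `ρ = exp (-(k-2) t) D / sg k`, `D = ∑ g_l ∑ |φ_ln|²`, and
`∫ ρ^(1+2/d) = sg k^(-2/d) ∫ exp ((ex k m) t) D^(1+2/d)`, `d = k + m`. -/
def S_FINAL : Prop := ∀ k m : ℕ, 6 ≤ k → ∀ (Λ : Finset ℕ) (g N : ℕ → ℕ),
  (∀ l ∈ Λ, g l ≤ Pool.Agent.N537.RS.hdim k l) →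
  ∀ (P : ∀ l, Fin (g l) → E k → ℝ) (u : ∀ l, Fin (N l) → Fin (g l) → Sp k m → ℂ),
  (∀ l ∈ Λ, Shell l (P l)) → (∀ l ∈ Λ, CylSystem (P l) (u l)) →
  Integrable (fun p : Sp k m =>
    (∑ l ∈ Λ, ∑ n, ∑ j, ‖u l n j p‖ ^ 2) ^ (1 + 2 / ((k + m : ℕ) : ℝ))) ∧
  Kcl (k + m) * (∫ p : Sp k m,
    (∑ l ∈ Λ, ∑ n, ∑ j, ‖u l n j p‖ ^ 2) ^ (1 + 2 / ((k + m : ℕ) : ℝ))) ≤
    ∑ l ∈ Λ, ∑ n, ∑ j, ∫ p, gradS (u l n j) p

end

end Pool.Agent.Run7.H894.LK
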